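import Mathlib
import Pool.Agent.KS6_57.NP.Ext

/-!
# Unique minimal-norm interpolants are exactly the multiples of extreme points

Problem MP_c109b8_an. A function `g ∈ H^∞`, not identically zero, is the unique minimal-norm
interpolant for some data `f ∈ H^∞` and some Blaschke sequence if and only if `g / ‖g‖` is an
extreme point of the unit ball of `H^∞`; for nonconstant `g` this means that the means of
`-log (1 - |g| / ‖g‖)` over the circles `|w| = r` are unbounded.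
-/

set_option autoImplicit false

open Complex ComplexConjugate Metric Filter Topology MeasureTheory
open Pool.Agent.KS6_57.NP

namespace Pool.Agent.Results.MP_c109b8_an.ExtremePoints

/-! ### Radial limits of modulus one on a set of positive measure -/

lemma unbounded_of_radial {g : ℂ → ℂ} (hg : DifferentiableOn ℂ g (ball 0 1))
    (hb : ∀ w ∈ ball (0:ℂ) 1, ‖g w‖ < 1)
    (hE : volume {θ ∈ Set.Ioc (0:ℝ) (2 * Real.pi) |
      Tendsto (fun r : ℝ => ‖g (circleMap 0 r θ)‖) (𝓝[<] 1) (𝓝 1)} ≠ 0) :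
    ∀ C : ℝ, ∃ r : ℝ, 0 < r ∧ r < 1 ∧ C < logMean g r := by
  by_contra hcon
  push Not at hcon
  obtain ⟨C, hC⟩ := hcon
  set E : Set ℝ := {θ ∈ Set.Ioc (0:ℝ) (2 * Real.pi) |
      Tendsto (fun r : ℝ => ‖g (circleMap 0 r θ)‖) (𝓝[<] 1) (𝓝 1)} with hEdef
  set ρ : ℕ → ℝ := fun n => 1 - 1 / (n + 2) with hρ
  have hρ0 : ∀ n, 0 < ρ n := fun n => by
    have h2 : (0:ℝ) ≤ n := n.cast_nonneg
    have : (1:ℝ) / (n + 2) < 1 := by rw [div_lt_one (by positivity)]; linarith
    simp only [hρ]; linarith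
  have hρ1 : ∀ n, ρ n < 1 := fun n => by
    have : (0:ℝ) < 1 / (n + 2) := by positivity
    simp only [hρ]; linarith
  have hρlim : Tendsto ρ atTop (𝓝[<] 1) := by
    rw [tendsto_nhdsWithin_iff]
    refine ⟨?_, Eventually.of_forall fun n => hρ1 n⟩
    have h1 : Tendsto (fun n : ℕ => (1:ℝ) / ((n:ℝ) + 1)) atTop (𝓝 0) :=
      tendsto_one_div_add_atTop_nhds_zero_nat
    have h2 := (h1.comp (tendsto_add_atTop_nat 1)).const_sub 1
    rw [sub_zero] at h2
    refine h2.congr fun n => ?_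
    simp only [Function.comp_apply, hρ]
    push_cast
    ring
  set u : ℕ → ℝ → ℝ := fun n θ => -Real.log (1 - ‖g (circleMap 0 (ρ n) θ)‖) with hu
  have hmem : ∀ n θ, circleMap 0 (ρ n) θ ∈ ball (0:ℂ) 1 := fun n θ => by
    rw [mem_ball_zero_iff, norm_circleMap_zero, abs_of_pos (hρ0 n)]; exact hρ1 n
  have hcont : ∀ n, Continuous (u n) := fun n => by
    have h1 : Continuous fun θ => -Real.log (1 - ‖g (circleMap 0 (ρ n) θ)‖) :=
      (contOn_log hg hb).comp_continuous (continuous_circleMap 0 (ρ n)) (hmem n)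
    exact h1
  have hnn : ∀ n θ, 0 ≤ u n θ := fun n θ => by
    have h1 := hb _ (hmem n θ)
    have h2 := norm_nonneg (g (circleMap 0 (ρ n) θ))
    exact neg_nonneg.2 (Real.log_nonpos (by linarith) (by linarith))
  have hint : ∀ n, ∫⁻ θ in Set.Ioc (0:ℝ) (2 * Real.pi), ENNReal.ofReal (u n θ) ≤
      ENNReal.ofReal (2 * Real.pi * C) := by
    intro n
    have hI : IntegrableOn (u n) (Set.Ioc (0:ℝ) (2 * Real.pi)) volume :=
      (hcont n).integrableOn_Ioc
    rw [← ofReal_integral_eq_lintegral_ofReal hI (Eventually.of_forall fun θ => hnn n θ)]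
    apply ENNReal.ofReal_le_ofReal
    have h1 := hC (ρ n) (hρ0 n) (hρ1 n)
    rw [logMean, Real.circleAverage_def, smul_eq_mul,
      intervalIntegral.integral_of_le Real.two_pi_pos.le] at h1
    rw [inv_mul_le_iff₀ Real.two_pi_pos] at h1
    exact h1
  have hF := lintegral_liminf_le' (μ := volume.restrict (Set.Ioc (0:ℝ) (2 * Real.pi)))
    (f := fun n θ => ENNReal.ofReal (u n θ)) (u := atTop)
    (fun n => ((hcont n).measurable.ennreal_ofReal).aemeasurable)
  have hle : liminf (fun n => ∫⁻ θ in Set.Ioc (0:ℝ) (2 * Real.pi), ENNReal.ofReal (u n θ)) atTop ≤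
      ENNReal.ofReal (2 * Real.pi * C) := by
    refine (liminf_le_liminf (Eventually.of_forall hint)).trans (le_of_eq ?_)
    exact liminf_const _
  have hfin : ∫⁻ θ in Set.Ioc (0:ℝ) (2 * Real.pi),
      liminf (fun n => ENNReal.ofReal (u n θ)) atTop ≠ ⊤ :=
    ((hF.trans hle).trans_lt ENNReal.ofReal_lt_top).ne
  have hmeas : Measurable fun θ => liminf (fun n => ENNReal.ofReal (u n θ)) atTop :=
    Measurable.liminf fun n => (hcont n).measurable.ennreal_ofReal
  have hae := ae_lt_top hmeas hfin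
  have hE0 : volume.restrict (Set.Ioc (0:ℝ) (2 * Real.pi)) E = 0 := by
    refine measure_mono_null ?_ hae
    intro θ hθ
    have hθ2 : Tendsto (fun n => ‖g (circleMap 0 (ρ n) θ)‖) atTop (𝓝 1) := hθ.2.comp hρlim
    have h1 : Tendsto (fun n => 1 - ‖g (circleMap 0 (ρ n) θ)‖) atTop (𝓝[>] 0) := by
      rw [tendsto_nhdsWithin_iff]
      refine ⟨?_, Eventually.of_forall fun n => ?_⟩
      · have := hθ2.const_sub 1
        rwa [sub_self] at this
      · have := hb _ (hmem n θ)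
        simp only [Set.mem_Ioi]; linarith
    have h2 : Tendsto (fun n => u n θ) atTop atTop :=
      tendsto_neg_atBot_atTop.comp (Real.tendsto_log_nhdsGT_zero.comp h1)
    have h3 : Tendsto (fun n => ENNReal.ofReal (u n θ)) atTop (𝓝 ⊤) :=
      ENNReal.tendsto_ofReal_nhds_top.2 h2
    simp only [Set.mem_compl_iff, Set.mem_ofPred_eq, not_lt, top_le_iff]
    exact h3.liminf_eq
  rw [Measure.restrict_apply₀'  measurableSet_Ioc.nullMeasurableSet] at hE0
  rw [Set.inter_eq_left.2 (fun θ hθ => hθ.1)] at hE0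
  exact hE hE0

/-! ### The singular inner function -/

/-- `exp ((w + 1) / (w - 1))` -/
noncomputable def S (w : ℂ) : ℂ := Complex.exp ((w + 1) / (w - 1))

lemma S_re (w : ℂ) : ((w + 1) / (w - 1)).re = -(1 - ‖w‖ ^ 2) / ‖w - 1‖ ^ 2 := by
  rw [Complex.div_re, ← Complex.normSq_eq_norm_sq, ← Complex.normSq_eq_norm_sq,
    Complex.normSq_apply w]
  simp only [add_re, one_re, sub_re, add_im, one_im, sub_im]
  ring

lemma S_norm (w : ℂ) : ‖S w‖ = Real.exp (-(1 - ‖w‖ ^ 2) / ‖w - 1‖ ^ 2) := by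
  rw [S, Complex.norm_exp, S_re]

lemma ne_one {w : ℂ} (hw : w ∈ ball (0:ℂ) 1) : w - 1 ≠ 0 := by
  intro h
  have : w = 1 := by linear_combination h
  rw [this] at hw
  simp at hw

lemma S_diff : DifferentiableOn ℂ S (ball 0 1) := by
  intro w hw
  have h := ne_one hw
  unfold S
  have h1 : DifferentiableAt ℂ (fun w : ℂ => (w + 1) / (w - 1)) w :=
    DifferentiableAt.div (by fun_prop) (by fun_prop) h
  exact h1.cexp.differentiableWithinAt

lemma S_lt {w : ℂ} (hw : w ∈ ball (0:ℂ) 1) : ‖S w‖ < 1 := by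
  rw [S_norm, Real.exp_lt_one_iff]
  have h1 : 0 < ‖w - 1‖ := norm_pos_iff.2 (ne_one hw)
  have h2 : ‖w‖ < 1 := by simpa using hw
  have h3 : 0 < 1 - ‖w‖ ^ 2 := by nlinarith [norm_nonneg w]
  exact div_neg_of_neg_of_pos (by linarith) (by positivity)

lemma S_lim {θ : ℝ} (h0 : 0 < θ) (h1 : θ < 2 * Real.pi) :
    Tendsto (fun r : ℝ => ‖S (circleMap 0 r θ)‖) (𝓝[<] 1) (𝓝 1) := by
  have hne : circleMap 0 1 θ - 1 ≠ 0 := by
    intro h
    have h2 : Complex.exp (θ * I) = 1 := by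
      have : circleMap 0 1 θ = Complex.exp (θ * I) := by simp [circleMap]
      rw [← this]; linear_combination h
    rw [Complex.exp_eq_one_iff] at h2
    obtain ⟨n, hn⟩ := h2
    have h3 : (θ : ℂ) = n * (2 * Real.pi) := by
      have : (θ : ℂ) * I = (n * (2 * Real.pi)) * I := by rw [hn]; ring
      exact mul_right_cancel₀ I_ne_zero this
    have h4 : θ = n * (2 * Real.pi) := by exact_mod_cast h3
    rw [h4] at h0 h1
    have hp := Real.two_pi_pos
    have h5 : (0:ℝ) < n := by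
      by_contra hc
      push Not at hc
      nlinarith
    have h6 : (n:ℝ) < 1 := by
      by_contra hc
      push Not at hc
      nlinarith
    have h7 : (0:ℤ) < n := by exact_mod_cast h5
    have h8 : n < (1:ℤ) := by exact_mod_cast h6
    omega
  have hc1 : Continuous fun r : ℝ => circleMap 0 r θ := by
    unfold circleMap; fun_prop
  have hn1 : ‖circleMap 0 1 θ‖ = 1 := by simp
  have hc : ContinuousAt (fun r : ℝ => Real.exp (-(1 - ‖circleMap 0 r θ‖ ^ 2) / ‖circleMap 0 r θ - 1‖ ^ 2)) 1 := by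
    refine ContinuousAt.rexp (ContinuousAt.div ?_ ?_ ?_)
    · exact (continuous_const.sub (hc1.norm.pow 2)).neg.continuousAt
    · exact ((hc1.sub continuous_const).norm.pow 2).continuousAt
    · exact pow_ne_zero 2 (norm_ne_zero_iff.2 hne)
  have h2 := hc.tendsto
  rw [hn1] at h2
  simp only [one_pow, sub_self, neg_zero, zero_div, Real.exp_zero] at h2
  refine (h2.mono_left nhdsWithin_le_nhds).congr fun r => ?_
  rw [S_norm]

lemma S_radial : volume {θ ∈ Set.Ioc (0:ℝ) (2 * Real.pi) |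
      Tendsto (fun r : ℝ => ‖S (circleMap 0 r θ)‖) (𝓝[<] 1) (𝓝 1)} ≠ 0 := by
  have h1 : Set.Ioo (0:ℝ) (2 * Real.pi) ⊆ {θ ∈ Set.Ioc (0:ℝ) (2 * Real.pi) |
      Tendsto (fun r : ℝ => ‖S (circleMap 0 r θ)‖) (𝓝[<] 1) (𝓝 1)} := fun θ hθ =>
    ⟨⟨hθ.1, hθ.2.le⟩, S_lim hθ.1 hθ.2⟩
  intro h2
  have h3 := measure_mono_null h1 h2
  rw [Real.volume_Ioo] at h3
  have := Real.two_pi_pos
  simp only [sub_zero, ENNReal.ofReal_eq_zero] at h3
  linarith

lemma hasProd_zero_of {ι : Type} {f : ι → ℂ} {P : ℂ} (h : HasProd f P) {i : ι} (hi : f i = 0) :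
    P = 0 := by
  classical
  have h1 : Tendsto (fun s : Finset ι => ∏ j ∈ s, f j) atTop (𝓝 0) := by
    apply tendsto_const_nhds.congr'
    filter_upwards [eventually_ge_atTop {i}] with s hs
    symm
    exact Finset.prod_eq_zero (hs (Finset.mem_singleton_self i)) hi
  exact tendsto_nhds_unique h h1

/-- A multiple of a Blaschke product without zeros is constant. -/
lemma const_of_blaschke {g : ℂ → ℂ} (h0 : ∀ w ∈ ball (0:ℂ) 1, g w ≠ 0)
    (hB : ∃ (c : ℂ) (B : ℂ → ℂ), IsBlaschkeProduct B ∧ ∀ w ∈ ball (0:ℂ) 1, g w = c * B w) :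
    ∃ K : ℂ, ∀ w ∈ ball (0:ℂ) 1, g w = K := by
  obtain ⟨c, B, ⟨θ, k, ι, _, a, ha, -, hB⟩, hSB⟩ := hB
  have hk : k = 0 := by
    by_contra hk
    obtain ⟨P, -, hP⟩ := hB 0 (by simp)
    have h1 := hSB 0 (by simp)
    rw [hP, zero_pow hk] at h1
    simp only [mul_zero, zero_mul] at h1
    exact h0 0 (by simp) h1
  subst hk
  by_cases hι : Nonempty ι
  · obtain ⟨i⟩ := hι
    have hmem : a i ∈ ball (0:ℂ) 1 := by simpa using (ha i).2
    obtain ⟨P, hP1, hP2⟩ := hB (a i) hmem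
    have hP0 : P = 0 := hasProd_zero_of hP1 (i := i) (by simp)
    have h1 := hSB (a i) hmem
    rw [hP2, hP0, mul_zero, mul_zero] at h1
    exact absurd h1 (h0 _ hmem)
  · rw [not_nonempty_iff] at hι
    refine ⟨c * Complex.exp (θ * I), ?_⟩
    intro w hw
    obtain ⟨P, hP1, hP2⟩ := hB w hw
    have hP : P = 1 := hP1.unique hasProd_empty
    rw [hSB w hw, hP2, hP]
    simp

lemma S_not_blaschke :
    ¬ ∃ (c : ℂ) (B : ℂ → ℂ), IsBlaschkeProduct B ∧ ∀ w ∈ ball (0:ℂ) 1, S w = c * B w := by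
  intro h
  obtain ⟨K, hK⟩ := const_of_blaschke (g := S) (fun w _ => Complex.exp_ne_zero _) h
  have h1 : ‖K‖ < 1 := by rw [← hK 0 (by simp)]; exact S_lt (by simp)
  have h2 := S_lim Real.pi_pos (by linarith [Real.pi_pos])
  have h3 : Tendsto (fun r : ℝ => ‖S (circleMap 0 r Real.pi)‖) (𝓝[<] 1) (𝓝 ‖K‖) := by
    refine tendsto_const_nhds.congr' ?_
    have h4 : Set.Ioo (0:ℝ) 1 ∈ 𝓝[<] (1:ℝ) := Ioo_mem_nhdsLT (by norm_num)
    filter_upwards [h4] with r hr
    rw [hK]
    rw [mem_ball_zero_iff, norm_circleMap_zero, abs_of_pos hr.1]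
    exact hr.2
  have := tendsto_nhds_unique h2 h3
  linarith

/-- Statement (3) for a function of the unit ball. -/
lemma radial (g : ℂ → ℂ) (hg : DifferentiableOn ℂ g (ball 0 1))
    (hg1 : ∀ w ∈ ball (0:ℂ) 1, ‖g w‖ ≤ 1)
    (hE : volume {θ ∈ Set.Ioc (0:ℝ) (2 * Real.pi) |
      Tendsto (fun r : ℝ => ‖g (circleMap 0 r θ)‖) (𝓝[<] 1) (𝓝 1)} ≠ 0) :
    ∃ z : ℕ → ℂ, IsBlaschkeSequence z ∧ IsUniqueMinimalNormInterpolant g z g := by
  have hext : IsExtremePoint g := by
    by_cases hb : ∀ w ∈ ball (0:ℂ) 1, ‖g w‖ < 1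
    · exact (extreme_iff hg hb).2 (unbounded_of_radial hg hb hE)
    · push Not at hb
      obtain ⟨c, hc, hc1⟩ := hb
      obtain ⟨z, hz⟩ := exists_blaschke
      exact extreme_of_det hg hg1 hz (det_of_max hg hg1 hc (le_antisymm (hg1 c hc) hc1) hz)
  have hin : InHinf g := ⟨hg, 1, hg1⟩
  have hs : supNorm g = 1 := by
    refine le_antisymm (ciSup_le fun w => hg1 w w.2) ?_
    obtain ⟨θ, hθ⟩ : {θ ∈ Set.Ioc (0:ℝ) (2 * Real.pi) |
      Tendsto (fun r : ℝ => ‖g (circleMap 0 r θ)‖) (𝓝[<] 1) (𝓝 1)}.Nonempty := by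
      rw [Set.nonempty_iff_ne_empty]
      intro h
      rw [h] at hE
      simp at hE
    refine le_of_tendsto hθ.2 ?_
    have h4 : Set.Ioo (0:ℝ) 1 ∈ 𝓝[<] (1:ℝ) := Ioo_mem_nhdsLT (by norm_num)
    filter_upwards [h4] with r hr
    apply le_supNorm hin
    rw [mem_ball_zero_iff, norm_circleMap_zero, abs_of_pos hr.1]
    exact hr.2
  obtain ⟨z, hz, hdet⟩ := exists_det hext
  refine ⟨z, hz, unique_of_det hin (by rw [hs]; norm_num) ?_⟩
  rw [hs]
  simpa using hdet

/-- (1) Let `g ∈ H^∞`. Then `g` is the unique minimal-norm interpolant for some `f ∈ H^∞` and some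
Blaschke sequence if and only if `g` vanishes on the disc or `g / ‖g‖` is an extreme point of the
closed unit ball of `H^∞`.

(2) A function with `|g| < 1` on the disc is an extreme point if and only if the means of
`-log (1 - |g|)` over the circles of radius `r < 1` are unbounded. (A function of the unit ball for
which `|g| < 1` fails at a point of the disc is a constant.)

(3) If `|g| ≤ 1` on the disc and the radial limits of `|g|` are equal to one on a set of positive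
measure, for example if `g` is an inner function, then `g` is the unique minimal-norm interpolant of
its own values on some Blaschke sequence.

(4) Q1 has a negative answer. -/
theorem result :
    (∀ g : ℂ → ℂ, InHinf g →
      ((∃ (f : ℂ → ℂ) (z : ℕ → ℂ), InHinf f ∧ IsBlaschkeSequence z ∧
          IsUniqueMinimalNormInterpolant f z g) ↔
        (∀ w ∈ ball (0:ℂ) 1, g w = 0) ∨ IsExtremePoint (fun w => g w / supNorm g))) ∧
    (∀ g : ℂ → ℂ, DifferentiableOn ℂ g (ball 0 1) → (∀ w ∈ ball (0:ℂ) 1, ‖g w‖ < 1) →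
      (IsExtremePoint g ↔ ∀ C : ℝ, ∃ r : ℝ, 0 < r ∧ r < 1 ∧ C < logMean g r)) ∧
    (∀ g : ℂ → ℂ, DifferentiableOn ℂ g (ball 0 1) → (∀ w ∈ ball (0:ℂ) 1, ‖g w‖ ≤ 1) →
      volume {θ ∈ Set.Ioc (0:ℝ) (2 * Real.pi) |
        Tendsto (fun r : ℝ => ‖g (circleMap 0 r θ)‖) (𝓝[<] 1) (𝓝 1)} ≠ 0 →
      ∃ z : ℕ → ℂ, IsBlaschkeSequence z ∧ IsUniqueMinimalNormInterpolant g z g) ∧
    ¬ ∀ (f : ℂ → ℂ) (z : ℕ → ℂ), InHinf f → IsBlaschkeSequence z →
      ∀ g : ℂ → ℂ, IsUniqueMinimalNormInterpolant f z g →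
        ∃ (c : ℂ) (B : ℂ → ℂ), IsBlaschkeProduct B ∧ ∀ w ∈ ball (0:ℂ) 1, g w = c * B w := by
  refine ⟨classification, fun g hg hb => extreme_iff hg hb, radial, ?_⟩
  intro H
  obtain ⟨z, hz, hu⟩ := radial S S_diff (fun w hw => (S_lt hw).le) S_radial
  exact S_not_blaschke (H S z ⟨S_diff, 1, fun w hw => (S_lt hw).le⟩ hz S hu)

end Pool.Agent.Results.MP_c109b8_an.ExtremePoints
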